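import Mathlib
import Pool.Agent.helper12.FI.DefsF

/-!
# Blocks with abelian defect group and small inertial quotient: definitions for the statement

`Irr`, `IrrOn`, `omega`, `Induces`, `funMap` are those of `helper58/DC/Defs.lean`, `DefectGroup` is that of
`helper12/TZ/DefsV.lean`, `inertial` is that of `helper12/FI/DefsF.lean`. `B` is the block of the irreducible character `χ` of `G`.
-/

set_option autoImplicit false

namespace Pool.Agent.FIV

open Pool.Agent.helper58.DC Pool.Agent.FIW

variable {G : Type} [Group G]

/-- The elements `u` of `D` on which the inertial quotient acts regularly: only the elements of `C_G(D)` in `N_G(D, b)` commute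
with `u`. -/
def regular (M : Ideal (integralClosure ℤ ℂ)) (D : Subgroup G) (θ : G → ℂ) : Set G :=
  {u | u ∈ D ∧ ∀ t ∈ inertial M D θ, t * u = u * t → t ∈ Subgroup.centralizer (D : Set G)}

/-- The order of the inertial quotient `I = N_G(D, b) / C_G(D)` is `i`. -/
def QuotientOrder (M : Ideal (integralClosure ℤ ℂ)) (D : Subgroup G) (θ : G → ℂ) (i : ℕ) : Prop :=
  (inertial M D θ).ncard = i * Nat.card (Subgroup.centralizer (D : Set G))

/-- `D` is a defect group of `B`, `D` is abelian, `b` is the block of the character `θ` of `C_G(D)`, `b^G = B`, and the inertial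
quotient `I = N_G(D, b) / C_G(D)` satisfies one of the following conditions:
* `2 |I| < p`;
* `I` is abelian and `|I| + Ω(|I|) + 1 < p`, `Ω` the number of prime factors, counted with multiplicity;
* `|I| + N + 1 < p`, where `N` subgroups of index `p` of `D` contain all elements of `D` on which `I` does not act regularly. -/
structure SmallQuotient (p : ℕ) (M : Ideal (integralClosure ℤ ℂ)) (χ : G → ℂ) (D : Subgroup G)
    (θ : G → ℂ) : Prop where
  defect : Pool.Agent.MAP.DefectGroup p M χ D
  comm : ∀ c ∈ D, ∀ d ∈ D, c * d = d * c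
  char : θ ∈ IrrOn (Subgroup.centralizer (D : Set G))
  ind : Induces M θ χ
  small : ∃ i : ℕ, QuotientOrder M D θ i ∧ (2 * i < p ∨
    ((∀ s ∈ inertial M D θ, ∀ t ∈ inertial M D θ, s * t * s⁻¹ * t⁻¹ ∈ Subgroup.centralizer (D : Set G)) ∧
      i + i.primeFactorsList.length + 1 < p) ∨
    ∃ F : Finset (Subgroup G), (∀ H ∈ F, H ≤ D ∧ H.relIndex D = p) ∧
      (∀ u ∈ D, (∀ H ∈ F, u ∉ H) → u ∈ regular M D θ) ∧ i + F.card + 1 < p)

/-- The number of the irreducible Brauer characters in the blocks `c` of the subgroup `H` with `c^G = B`: the dimension of the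
space which is spanned by the restrictions to the `p`-regular elements of `H` of the irreducible characters in these blocks.
For `H = G` this is `l(B)`, and for `H = N_G(D)` it is `l(B_N)`, `B_N` the Brauer correspondent of `B`. -/
noncomputable def brauerNumber (p : ℕ) (M : Ideal (integralClosure ℤ ℂ)) (χ : G → ℂ) (H : Subgroup G) : ℕ :=
  Module.finrank ℂ (Submodule.span ℂ
    ((fun (ψ : G → ℂ) (v : {v : G // v ∈ H ∧ ¬ p ∣ orderOf v}) => ψ v) '' {ψ : G → ℂ | ψ ∈ IrrOn H ∧ Induces M ψ χ}))

end Pool.Agent.FIV
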