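import Mathlib
import Pool.Agent.helper12.FI4.Fin4
import Pool.Agent.helper12.FI5.DefsW5
import Pool.Agent.helper83.FI4B.Stm
import Pool.Agent.helper83.FI4B.Spec

/-!
# Project fi4, version FI4+ (MP_baa4d7_al): the final theorem
-/

set_option autoImplicit false

namespace Pool.Agent.FI5

open Pool.Agent.helper58.DC Pool.Agent.DI Pool.Agent.GR Pool.Agent.OB Pool.Agent.DR Pool.Agent.FI Pool.Agent.FI3 Pool.Agent.FI4 Pool.Agent.FI4B

/-- The standing hypotheses of the project from the structure of the statement. -/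
theorem Fin5_std (hBH : BH2_stmt) {p : ℕ}
    (hpr : p.Prime) {M : Ideal (integralClosure ℤ ℂ)} (hM : M.IsMaximal)
    (hp : (p : integralClosure ℤ ℂ) ∈ M) {G : Type} [Group G] [Finite G]
    {χ : G → ℂ} (hχ : χ ∈ Irr G) {D : Subgroup G} {θ : G → ℂ}
    (h : Pool.Agent.FIV.SmallQuotient p M χ D θ) :
    ∃ x : G, Rt p M D x θ χ ∧ Hy2 p M D θ := by
  classical
  have hS : Setup p M := ⟨hpr, hM, hp⟩
  have : Fact p.Prime := ⟨hpr⟩
  obtain ⟨x, hx⟩ := Fin_defAt hS hχ h.defect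
  have hR : Rt p M D x θ χ := ⟨hχ, hx, h.comm, h.char, h.ind⟩
  have hin : Pool.Agent.FIW.inertial M D θ = (TT M D θ : Set G) := by
    ext g
    exact Tr_inertial M D θ g
  have hrg : Pool.Agent.FIV.regular M D θ = RG M D θ := by
    ext u
    constructor
    · rintro ⟨h1, h2⟩
      exact ⟨h1, fun t ht => h2 t ((Tr_inertial M D θ t).2 ht)⟩
    · rintro ⟨h1, h2⟩
      exact ⟨h1, fun t ht => h2 t ((Tr_inertial M D θ t).1 ht)⟩
  have hCT : cz D ≤ TT M D θ := by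
    intro c hc
    have hc' : c ∈ nz D := cz_le_nz D hc
    refine ⟨hc', ?_⟩
    have h1 : funMap (MulAut.conj c) θ = θ := by
      have hth : θ ∈ IrrOn (cz D) := h.char
      funext y
      have h2 := ((Pool.Agent.DR.AllDI.iB2 G (cz D)).2 θ hth).2.1 y c⁻¹ ((cz D).inv_mem hc)
      unfold funMap
      rw [MulAut.conj_inv_apply]
      simpa using h2
    rw [h1]
    exact SB.refl _ _
  have hcard : Nat.card (TT M D θ) = iI M D θ * Nat.card (cz D) := by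
    have h2 := Subgroup.relIndex_mul_relIndex (⊥ : Subgroup G) (cz D) (TT M D θ) bot_le hCT
    rw [Subgroup.relIndex_bot_left, Subgroup.relIndex_bot_left] at h2
    unfold iI
    rw [mul_comm]
    exact h2.symm
  have hinc : (Pool.Agent.FIW.inertial M D θ).ncard = iI M D θ * Nat.card (cz D) := by
    rw [hin, ← hcard]
    rfl
  have hCpos : 0 < Nat.card (cz D) := Nat.card_pos
  refine ⟨x, hR, ?_⟩
  obtain ⟨i, hi, h1⟩ := h.small
  have hi2 : i = iI M D θ := by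
    have h2 : i * Nat.card (cz D) = iI M D θ * Nat.card (cz D) := by
      rw [← hinc]
      exact hi.symm
    exact Nat.eq_of_mul_eq_mul_right hCpos h2
  subst hi2
  obtain ⟨hb1, hb2⟩ := hBH p M hS G D x θ χ hR
  rcases h1 with h1 | ⟨h1, h2⟩ | ⟨F, h1, h2, h3⟩
  · exact hb1 h1
  · refine hb2 (fun a ha b hb => ?_) h2
    exact h1 a ((Tr_inertial M D θ a).2 ha) b ((Tr_inertial M D θ b).2 hb)
  · refine ⟨F, h1, fun u hu hur => ?_, h3⟩
    by_contra hc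
    push Not at hc
    exact hur (hrg ▸ h2 u hu hc)

/-- All heights are zero, in `B` and in its Brauer correspondent. -/
theorem Fin5_ht (hBH : BH2_stmt) (hHT : BHT_stmt) (hHN : HN2_stmt) (p : ℕ)
    (hpr : p.Prime) (M : Ideal (integralClosure ℤ ℂ)) (hM : M.IsMaximal)
    (hp : (p : integralClosure ℤ ℂ) ∈ M) (G : Type) [Group G] [Finite G]
    (χ : G → ℂ) (hχ : χ ∈ Irr G) (D : Subgroup G) (θ : G → ℂ)
    (h : Pool.Agent.FIV.SmallQuotient p M χ D θ) (a : ℕ) (ha : Nat.card D = p ^ a) :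
    (∀ ψ ∈ Irr G, Induces M ψ χ → Defect p ⊤ ψ a) ∧
    ∀ ψ ∈ IrrOn (Subgroup.normalizer (D : Set G)), Induces M ψ χ →
      Defect p (Subgroup.normalizer (D : Set G)) ψ a := by
  have hS : Setup p M := ⟨hpr, hM, hp⟩
  obtain ⟨x, hR, hH⟩ := Fin5_std hBH hpr hM hp hχ h
  constructor
  · intro ψ hψ hi
    exact hHT p M hS G D x θ χ hR hH ψ ⟨(Pool.Agent.GR.All.dTI G ψ).2 hψ, hi⟩ a ha
  · intro ψ hψ hi
    refine hHN p M hS G D x θ χ hR hH D (nz D) hR.dfa.pgrp Subgroup.le_normalizer ?_ le_rfl ψ ⟨hψ, hi⟩ a ha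
    exact cz_le_nz D

/-- `k(B) = k(B_N)`. -/
theorem Fin5_k (hBH : BH2_stmt) (hAM : AM2_stmt) (p : ℕ)
    (hpr : p.Prime) (M : Ideal (integralClosure ℤ ℂ)) (hM : M.IsMaximal)
    (hp : (p : integralClosure ℤ ℂ) ∈ M) (G : Type) [Group G] [Finite G]
    (χ : G → ℂ) (hχ : χ ∈ Irr G) (D : Subgroup G) (θ : G → ℂ)
    (h : Pool.Agent.FIV.SmallQuotient p M χ D θ) :
    Nat.card {ψ : G → ℂ // ψ ∈ Irr G ∧ Induces M ψ χ} =
      Nat.card {ψ : G → ℂ // ψ ∈ IrrOn (Subgroup.normalizer (D : Set G)) ∧ Induces M ψ χ} := by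
  have hS : Setup p M := ⟨hpr, hM, hp⟩
  obtain ⟨x, hR, hH⟩ := Fin5_std hBH hpr hM hp hχ h
  have h1 := hAM p M hS G D x θ χ hR hH
  have h2 : (Blk M χ (⊤ : Subgroup G)).ncard = Nat.card {ψ : G → ℂ // ψ ∈ Irr G ∧ Induces M ψ χ} := by
    have h3 : (Blk M χ (⊤ : Subgroup G)).ncard =
      Nat.card {ψ : G → ℂ // ψ ∈ IrrOn (⊤ : Subgroup G) ∧ Induces M ψ χ} := rfl
    rw [h3]
    refine Nat.card_congr (Equiv.subtypeEquivRight fun ψ => ?_)
    have h4 := Pool.Agent.GR.All.dTI G ψ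
    constructor
    · rintro ⟨h5, h6⟩
      exact ⟨h4.1 h5, h6⟩
    · rintro ⟨h5, h6⟩
      exact ⟨h4.2 h5, h6⟩
  rw [← h2, h1]
  rfl

/-- `l(B) = l(B_N) ≤ p - 2`. -/
theorem Fin5_l (hBH : BH2_stmt) (hMN : MN2_stmt) (hBD : BBD_stmt) (hXL : XL_stmt) (p : ℕ)
    (hpr : p.Prime) (M : Ideal (integralClosure ℤ ℂ)) (hM : M.IsMaximal)
    (hp : (p : integralClosure ℤ ℂ) ∈ M) (G : Type) [Group G] [Finite G]
    (χ : G → ℂ) (hχ : χ ∈ Irr G) (D : Subgroup G) (θ : G → ℂ)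
    (h : Pool.Agent.FIV.SmallQuotient p M χ D θ) :
    Pool.Agent.FIV.brauerNumber p M χ ⊤ =
      Pool.Agent.FIV.brauerNumber p M χ (Subgroup.normalizer (D : Set G)) ∧
    Pool.Agent.FIV.brauerNumber p M χ ⊤ + 1 < p := by
  have hS : Setup p M := ⟨hpr, hM, hp⟩
  obtain ⟨x, hR, hH⟩ := Fin5_std hBH hpr hM hp hχ h
  have h1 := hMN p M hS G D x θ χ hR hH
  have hb : ∀ H : Subgroup G, Pool.Agent.FIV.brauerNumber p M χ H = Pool.Agent.FIW.brauerNumber p M χ H :=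
    fun _ => rfl
  rw [hb, hb]
  rw [hXL p M hS G χ ⊤, hXL p M hS G χ (nz D)] at h1
  obtain ⟨l, h2, -, h3⟩ := hBD p M hS G D x θ χ hR hH
  rw [hXL p M hS G χ ⊤] at h2
  have h4 : Pool.Agent.FIW.brauerNumber p M χ ⊤ = l := by exact_mod_cast h2
  refine ⟨by exact_mod_cast h1, ?_⟩
  rw [h4]
  exact h3

/-- The output of the block E for the condition `Hy2`, `E_B / E[B]` cyclic. -/
def DSC5_stmt : Prop :=
  ∀ (p : ℕ) (M : Ideal (integralClosure ℤ ℂ)), Setup p M → ∀ (G E A : Type) [Group G] [Group E] [Group A]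
    [Finite G] [Finite E] (X : Extension G E A), IsOp p (⊤ : Subgroup G) ⊥ → ∀ (D : Subgroup G) (x : G)
    (θ χ : G → ℂ), Rt p M D x θ χ → Hy2 p M D θ → D ≠ ⊥ →
    ∀ s : A, (∀ a ∈ Pool.Agent.BQ.AB X M χ, ∃ k : ℤ, s ^ k * a ∈ Pool.Agent.BQ.AI X M χ) →
    ∀ (d : ℤ) (U : Subgroup A), altSum X p M χ d U = 0

/-- The output of the block E for the condition `Hy2`, all `E`. -/
def DSE5_stmt : Prop :=
  ∀ (p : ℕ) (M : Ideal (integralClosure ℤ ℂ)), Setup p M → ∀ (G E A : Type) [Group G] [Group E] [Group A]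
    [Finite G] [Finite E] (X : Extension G E A), IsOp p (⊤ : Subgroup G) ⊥ → ∀ (D : Subgroup G) (x : G)
    (θ χ : G → ℂ), Rt p M D x θ χ → Hy2 p M D θ → D ≠ ⊥ → ∀ (a : A) (d : ℤ),
    ∑ᶠ U : {U : Subgroup A // a ∈ U}, altSum X p M χ d U.1 = 0

/-- Dade's conjecture for `B`, all extensions `E`. -/
theorem Fin5_dade (hBH : BH2_stmt) (hDSE : DSE5_stmt) (hDSC : DSC5_stmt) (p : ℕ)
    (hpr : p.Prime) (M : Ideal (integralClosure ℤ ℂ)) (hM : M.IsMaximal)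
    (hp : (p : integralClosure ℤ ℂ) ∈ M) (G : Type) [Group G] [Finite G]
    (χ : G → ℂ) (hχ : χ ∈ Irr G) (D : Subgroup G) (θ : G → ℂ)
    (h : Pool.Agent.FIV.SmallQuotient p M χ D θ) (hG : IsOp p (⊤ : Subgroup G) ⊥) (hD : D ≠ ⊥)
    (E A : Type) [Group E] [Group A] [Finite E] (X : Extension G E A) :
    ((∃ s : A, ∀ a ∈ Pool.Agent.BQ.AB X M χ, ∃ k : ℤ, s ^ k * a ∈ Pool.Agent.BQ.AI X M χ) →
      ∀ (d : ℤ) (U : Subgroup A), altSum X p M χ d U = 0) ∧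
    ∀ (a : A) (d : ℤ), ∑ᶠ U : {U : Subgroup A // a ∈ U}, altSum X p M χ d U.1 = 0 := by
  have hS : Setup p M := ⟨hpr, hM, hp⟩
  obtain ⟨x, hR, hH⟩ := Fin5_std hBH hpr hM hp hχ h
  constructor
  · rintro ⟨s, hs⟩ d U
    exact hDSC p M hS G E A X hG D x θ χ hR hH hD s hs d U
  · intro a d
    exact hDSE p M hS G E A X hG D x θ χ hR hH hD a d

end Pool.Agent.FI5
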