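import Mathlib
import Pool.Agent.helper83.FI4B.SpecE2
import Pool.Agent.helper12.FI4.SpecXL

/-!
# Project fi4, version FI4+ (MP_baa4d7_al): the equivariant version without the condition `3 < p`

If `p ≤ 3` then `l(B) = 1` and all traces are `1`.
-/

set_option autoImplicit false

namespace Pool.Agent.FI5

open Pool.Agent.helper58.DC Pool.Agent.DI Pool.Agent.GR Pool.Agent.OB Pool.Agent.DR Pool.Agent.FI Pool.Agent.FI3 Pool.Agent.FI4 Pool.Agent.FI4I Pool.Agent.FI4E Pool.Agent.FI4B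

/-- If there is one Brauer character, the trace is `1`. -/
theorem TL1 (hXL : XL_stmt) (hBAA : BAA_stmt) (hIM : IM_stmt) (hB2 : B2_stmt) (p : ℕ)
    (M : Ideal (integralClosure ℤ ℂ)) (hM : Setup p M) (G : Type) [Group G] [Finite G]
    (χ : G → ℂ) (H : Subgroup G) (α : MulAut G) (hαH : am α H = H) (hst : Stb M χ α)
    (hl : LL p M χ H = 1) : tL p M χ H α = 1 := by
  classical
  have hirr : ∀ ψ : G → ℂ, ψ ∈ IrrOn H ↔ funMap α ψ ∈ IrrOn H := by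
    intro ψ
    have h1 := (hBAA G M p α H H H χ ψ χ).2.2.1
    rw [hαH] at h1
    exact h1
  have hmem : ∀ ψ ∈ Blk M χ H, funMap α ψ ∈ Blk M χ H := by
    intro ψ hψ
    exact ⟨(hirr ψ).1 hψ.1, (hIM G M (funMap α ψ) (funMap α χ) χ).2.2.1
      (((hIM G M ψ χ χ).2.2.2 α).2 hψ.2) hst⟩
  have h1 : Pool.Agent.FIW.brauerNumber p M χ H = 1 := by
    have h2 := hXL p M hM G χ H
    rw [hl] at h2
    exact_mod_cast h2.symm
  unfold Pool.Agent.FIW.brauerNumber at h1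
  obtain ⟨v, hv0, hv⟩ := finrank_eq_one_iff'.1 h1
  have hres : ∀ ψ ∈ Blk M χ H, ∃ c : ℂ, ∀ x : {v : G // v ∈ H ∧ ¬ p ∣ orderOf v}, ψ x.1 = c * v.1 x := by
    intro ψ hψ
    obtain ⟨c, hc⟩ := hv ⟨fun x => ψ x.1, Submodule.subset_span ⟨ψ, hψ, rfl⟩⟩
    refine ⟨c, fun x => ?_⟩
    have h3 := congrArg (fun w => w.1 x) hc
    exact h3.symm
  have hone : ¬ p ∣ orderOf (1 : G) := by
    rw [orderOf_one]
    intro h
    exact hM.pr.one_lt.ne' (Nat.dvd_one.1 h)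
  have heq : ∀ ψ ∈ Blk M χ H, ∀ x : G, x ∈ H → ¬ p ∣ orderOf x → funMap α ψ x = ψ x := by
    intro ψ hψ x hx hpx
    obtain ⟨c, hc⟩ := hres ψ hψ
    obtain ⟨c', hc'⟩ := hres _ (hmem ψ hψ)
    have h3 := hc ⟨1, H.one_mem, hone⟩
    have h4 := hc' ⟨1, H.one_mem, hone⟩
    have h5 : funMap α ψ 1 = ψ 1 := by
      unfold funMap
      rw [map_one]
    obtain ⟨n, hn, hn1, -⟩ := ((hB2 G H).2 ψ hψ.1).1
    have h6 : ψ 1 ≠ 0 := by
      rw [hn1]
      exact_mod_cast hn.ne'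
    have h7 : (c' - c) * v.1 ⟨1, H.one_mem, hone⟩ = 0 := by
      have h8 : ψ 1 = c * v.1 ⟨1, H.one_mem, hone⟩ := h3
      have h9 : funMap α ψ 1 = c' * v.1 ⟨1, H.one_mem, hone⟩ := h4
      rw [sub_mul, ← h8, ← h9, h5, sub_self]
    have h10 : v.1 ⟨1, H.one_mem, hone⟩ ≠ 0 := by
      intro h11
      have h8 : ψ 1 = c * v.1 ⟨1, H.one_mem, hone⟩ := h3
      rw [h11, mul_zero] at h8
      exact h6 h8
    have h12 : c' = c := by
      have := (mul_eq_zero.1 h7).resolve_right h10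
      exact sub_eq_zero.1 this
    have h13 : funMap α ψ x = c' * v.1 ⟨x, hx, hpx⟩ := hc' ⟨x, hx, hpx⟩
    have h14 : ψ x = c * v.1 ⟨x, hx, hpx⟩ := hc ⟨x, hx, hpx⟩
    rw [h13, h14, h12]
  have hEE : ∀ ψ ∈ Blk M χ H, EE p H (funMap α ψ) ψ = EE p H ψ ψ := by
    intro ψ hψ
    unfold EE
    congr 1
    refine finsum_mem_congr rfl fun x hx => ?_
    rw [heq ψ hψ x hx.1 hx.2]
  unfold tL tS
  rw [finsum_mem_congr rfl hEE]
  exact hl

/-- The equivariant form of `l(B) = l(B_N)`, for all `p`. -/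
def MNE5_stmt : Prop :=
  ∀ (p : ℕ) (M : Ideal (integralClosure ℤ ℂ)), Setup p M → ∀ (G : Type) [Group G] [Finite G]
    (D : Subgroup G) (x : G) (θ χ : G → ℂ), Rt p M D x θ χ → Hy2 p M D θ →
    ∀ α : MulAut G, am α D = D → Stb M χ α → tL p M χ ⊤ α = tL p M χ (nz D) α

theorem MNE5 (hMNE : MNE2_stmt) (hXL : XL_stmt) (hBBD : BBD_stmt) (hONB : ONB2_stmt) (hBAA : BAA_stmt)
    (hIM : IM_stmt) (hB2 : B2_stmt) : MNE5_stmt := by
  intro p M hM G _ _ D x θ χ hR hH α hα hst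
  by_cases hp : 3 < p
  · exact hMNE p M hM hp G D x θ χ hR hH α hα hst
  · obtain ⟨l, h1, h2, h3⟩ := hBBD p M hM G D x θ χ hR hH
    obtain ⟨l', h4, h5, h6⟩ := hONB p M hM G D x θ χ hR hH
    have h7 : l = 1 := by omega
    have h8 : l' = 1 := by omega
    rw [h7, Nat.cast_one] at h1
    rw [h8, Nat.cast_one] at h4
    have h9 : am α (⊤ : Subgroup G) = ⊤ := (hBAA G M p α ⊤ ⊤ ⊤ χ χ χ).1.2.2.2.2.2.1
    have h10 : am α (nz D) = nz D := by
      have h11 := (hBAA G M p α D D D χ χ χ).1.2.1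
      rw [hα] at h11
      exact h11.symm
    rw [TL1 hXL hBAA hIM hB2 p M hM G χ ⊤ α h9 hst h1, TL1 hXL hBAA hIM hB2 p M hM G χ (nz D) α h10 hst h4]

end Pool.Agent.FI5
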