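import Pool.Agent.helper58.FI4E.AllE
import Pool.Agent.helper12.OB.All
import Pool.Agent.helper12.FI5.DSE5
import Pool.Agent.helper65.FI4.XL
import Pool.Agent.helper13.FI4B.BSM
import Pool.Agent.helper2.FI4B.BCV
import Pool.Agent.helper24.FI4B.BAV
import Pool.Agent.helper24.FI4B.MNE2
import Pool.Agent.helper27.FI4B.BPS
import Pool.Agent.helper27.FI4B.BTR
import Pool.Agent.helper28.FI4B.BIR
import Pool.Agent.helper39.FI4B.BAP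
import Pool.Agent.helper41.FI4B.BTP
import Pool.Agent.helper44.FI4B.BST
import Pool.Agent.helper47.FI4B.BHT
import Pool.Agent.helper48.FI4B.BRI
import Pool.Agent.helper49.FI4B.BH2
import Pool.Agent.helper52.FI4B.BCN
import Pool.Agent.helper6.FI4B.BON
import Pool.Agent.helper64.FI4B.BHN
import Pool.Agent.helper67.FI4B.BCJ
import Pool.Agent.helper69.FI4B.BBD
import Pool.Agent.helper75.FI4B.BPL
import Pool.Agent.helper83.FI4B.AM2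
import Pool.Agent.helper83.FI4B.DHZ2
import Pool.Agent.helper83.FI4B.HN2
import Pool.Agent.helper83.FI4B.IHE2
import Pool.Agent.helper83.FI4B.IHN2
import Pool.Agent.helper83.FI4B.MN2
import Pool.Agent.helper83.FI4B.ONB2
import Pool.Agent.helper83.FI4B.TG2
import Pool.Agent.helper83.FI4B.TGE2
import Pool.Agent.helper91.FI4B.BOR
import Pool.Agent.helper96.FI4B.BIA

/-!
# Project fi4, version FI4+ (MP_baa4d7_al): assembly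
-/

set_option autoImplicit false

namespace Pool.Agent.FI5.All5

open Pool.Agent Pool.Agent.FI Pool.Agent.FI3 Pool.Agent.FI4 Pool.Agent.FI4I Pool.Agent.FI4E Pool.Agent.FI4B Pool.Agent.GR Pool.Agent.helper58.DC
  Pool.Agent.DI Pool.Agent.OB Pool.Agent.FI5

theorem aXL : XL_stmt := XL Pool.Agent.FI.AllQ.qQEI Pool.Agent.GR.All.dBCL Pool.Agent.FI.AllA.dSTC Pool.Agent.GR.All.dB2
theorem aBIR : BIR_stmt := BIR BIA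
theorem aBRI : BRI_stmt := BRI aBIR AllR.rRR1 GR.All.dGLI GR.All.dGLP (AllQ2.eQEU AllQ.qQEV) AllQ2.dQCG
theorem aBPS : BPS_stmt := BPS aLA_LCG aLA_LCO BOR
theorem aBST : BST_stmt := BST aBPS aBRI AllQ2.dQID FI4.AllP4.pNU4 FI4.AllP4.pOR4 FI4.AllP4.pDOR4 FI4.AllP4.pGRG FI4.AllP4.pRGF
  (AllQ2.eQEU AllQ.qQEV) AllQ2.dQCG aLA_LCG Pool.Agent.OB.All.oZT4
theorem aBPL : FI4B.BPL_stmt := FI4B.BPL FI4B.BSM
theorem aBAV : BAV_stmt := BAV aBPL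
theorem aBON : BON_stmt := BON aBAV
theorem aBHT : BHT_stmt := BHT FI4.AllP4.pLOA FI4.AllP4.pGRG AllQ2.dQID (AllQ2.eQHT AllQ.qQEV) FI4.AllHT.hIAP FI4.AllHT.hNAG
  FI4.AllHT.hDPX FI4.AllHT.hGAV FI4.AllHT.tBS1 AllA.dTPR
theorem aBBD : BBD_stmt := BBD aBST aBON BCN FI4.AllP4.pLOA FI4.AllP4.pGRG FI4.AllM.mKZ4 FI4.AllM.mIR4 FI4.AllP4.pBES4 aBHT
  FI4C.AllC.cCN4 FI4C.AllC.cGMX FI4.AllK.kLLN AllA.dTPR
theorem aBH2 : BH2_stmt := BH2 BCV BAP FI4.AllP4.pLOA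
theorem aBHN : BHN_stmt := BHN FI4I.AllI.iTRT FI4I.AllI.iTR3
theorem aBCJ : BCJ_stmt := BCJ FI4I.AllI.iTTC AllB.dCON AllC.cFEQ AllA.dSYL
theorem aIHN2 : IHN2_stmt := IHN2 FI4I.AllI.iRTN aBHN aBCJ FI4I.AllI.iBKV FI4I.AllI.iTRL FI4I.AllI.iTR3 AllC.cFSI
theorem aTG2 : TG2_stmt := TG2 (FI4I.AllI.iTOG FI4.AllK.kLBN) FI4I.AllI.iLOC aIHN2 FI3F.AllF.cFMX3
theorem aONB2 : ONB2_stmt := ONB2 FI4I.AllI.iBKV AllB.dCON AllA.dEXB AllC.cFEQ AllC.cFSI AllA.dCJG FI4I.AllI.iRTN aBHN FI4I.AllI.iTRL aBBD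
theorem aMN2 : MN2_stmt := MN2 aTG2 FI4.AllK.kDV4 FI4.AllK.kOPD aBHT aBBD aONB2
theorem aHN2 : HN2_stmt := HN2 FI4I.AllI.iBKN FI4I.AllI.iBKV aBCJ FI4I.AllI.iRTN aBHN FI4I.AllI.iTRL aBHT FI4I.AllI.iTR4
theorem aAM2 : AM2_stmt := AM2 aMN2 aIHN2 FI4I.AllI.iLOC (FI4I.AllI.iKNR FI4.AllK.kKRA FI4.AllK.kLBN) FI4I.AllI.iVNN FI4I.AllI.iLBI aBCJ AllC.cFEQ
theorem aBTR : BTR_stmt := BTR BTP FI4E.AllE.eRAT AllQ.qQEI GR.All.dBCL GR.All.dB2 FI4E.AllE.eBAA GR.All.dIM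
theorem aIHE2 : IHE2_stmt := IHE2 FI4E.AllE.eTRE FI4E.AllE.eTRA FI4I.AllI.iRTN aBHN aBCJ FI4I.AllI.iBKV FI4I.AllI.iTR3 AllC.cFSI
theorem aTGE2 : TGE2_stmt := TGE2 FI4E.AllE.eTOE FI4E.AllE.eLCG aIHE2 FI3F.AllF.cFMX3 FI4E.AllE.eTSI FI4E.AllE.eBAA
theorem aMNE2 : MNE2_stmt := MNE2 aTGE2 (FI4E.AllE3.eDV4E FI4E.AllE.eOMX FI4E.AllE.eUNS) FI4.AllK.kOPD aBHT aBBD aONB2 aMN2
  FI4E.AllE.eBDE FI4E.AllE.ePRK aBTR FI4E.AllE.eBAA GR.All.dBCL GR.All.dIM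
theorem aMNE5 : MNE5_stmt := MNE5 aMNE2 aXL aBBD aONB2 FI4E.AllE.eBAA GR.All.dIM GR.All.dB2
theorem aDSZ5 : DSZ5_stmt := DSZ5 FI4E.AllE.eOMX FI4E.AllE.eOMR FI4E.AllE.eDFA aTGE2 aMNE5 FI4E.AllE.eBAA
theorem aDHZ2 : DHZ2_stmt := DHZ2 DR.AllDI.iA13 aHN2
theorem aDSE5 : DSE5_stmt := DSE5 aDSZ5 aDHZ2
theorem aDSC5 : DSC5_stmt := DSC5 aDSE5 Pool.Agent.BQ.All.qZRO Pool.Agent.BQ.DWN

end Pool.Agent.FI5.All5
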